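import Pool.Agent.H25.BCE.Stmts

/-!
MP_696a38_gt, modules BLD and BLF: the shifted blocks are disjoint and locally finite.
-/

set_option autoImplicit false

namespace Pool.Agent.H29.BCE

open scoped ContDiff Topology
open Pool.Agent.H73 (P V ex ey pb solA solG mu0 Gam lin)
open Pool.Agent.H25.BCE

theorem block_bounds (x : P 3) (r : ℤ × Gam) (h : En (x + sh r) < dl) :
    |x.2 2 + (r.1 : ℝ) * Per| < 1 / 8 ∧
    |Real.exp (mu0 * x.1 2) * (x.2 0 + r.2.1.1)| < 1 / 8 ∧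
    |Real.exp (-(mu0 * x.1 2)) * (x.2 1 + r.2.1.2)| < 1 / 8 := by
  have h0 : En (x + sh r) = (x.2 2 + (r.1 : ℝ) * Per) ^ 2 +
      (Real.exp (mu0 * x.1 2) * (x.2 0 + r.2.1.1)) ^ 2 +
      (Real.exp (-(mu0 * x.1 2)) * (x.2 1 + r.2.1.2)) ^ 2 := by
    unfold En
    rw [Pool.Agent.H73.solA_two, mul_pow, mul_pow, ← Real.exp_nat_mul, ← Real.exp_nat_mul]
    have e1 : (x + sh r).1 2 = x.1 2 := by simp [sh]
    have e2 : (x + sh r).2 0 = x.2 0 + r.2.1.1 := by simp [sh]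
    have e3 : (x + sh r).2 1 = x.2 1 + r.2.1.2 := by simp [sh]
    have e4 : (x + sh r).2 2 = x.2 2 + (r.1 : ℝ) * Per := by simp [sh]
    rw [e1, e2, e3, e4]
    have e5 : ((2 : ℕ) : ℝ) * (mu0 * x.1 2) = 2 * mu0 * x.1 2 := by push_cast; ring
    have e6 : ((2 : ℕ) : ℝ) * (-(mu0 * x.1 2)) = -(2 * mu0 * x.1 2) := by push_cast; ring
    rw [e5, e6]
  rw [h0, dl] at h
  have q1 := sq_nonneg (x.2 2 + (r.1 : ℝ) * Per)
  have q2 := sq_nonneg (Real.exp (mu0 * x.1 2) * (x.2 0 + r.2.1.1))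
  have q3 := sq_nonneg (Real.exp (-(mu0 * x.1 2)) * (x.2 1 + r.2.1.2))
  have key : ∀ y : ℝ, y ^ 2 < 1 / 64 → |y| < 1 / 8 := by
    intro y hy
    have : y ^ 2 < (1 / 8 : ℝ) ^ 2 := by
      norm_num at hy ⊢
      exact hy
    exact abs_lt_of_sq_lt_sq this (by norm_num)
  exact ⟨key _ (by linarith), key _ (by linarith), key _ (by linarith)⟩

theorem BLD_thm (hLA1 : LA1Stmt) (hCCP : CCPStmt) : BLDStmt := by
  intro x r r' h h'
  obtain ⟨a1, a2, a3⟩ := block_bounds x r h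
  obtain ⟨b1, b2, b3⟩ := block_bounds x r' h'
  have hj : r.1 = r'.1 := by
    by_contra hne
    have h1 : (1 : ℝ) ≤ |((r.1 - r'.1 : ℤ) : ℝ)| := by
      rw [← Int.cast_abs]
      exact_mod_cast Int.one_le_abs (sub_ne_zero.2 hne)
    have h2 : |((r.1 - r'.1 : ℤ) : ℝ) * Per| < 1 / 4 := by
      have : ((r.1 - r'.1 : ℤ) : ℝ) * Per =
          (x.2 2 + (r.1 : ℝ) * Per) - (x.2 2 + (r'.1 : ℝ) * Per) := by
        push_cast
        ring
      rw [this]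
      refine (abs_sub _ _).trans_lt ?_
      linarith
    rw [abs_mul, abs_of_pos (by linarith [hCCP.2] : 0 < Per)] at h2
    nlinarith [hCCP.2, mul_le_mul h1 hCCP.2.le (by norm_num) (abs_nonneg _)]
  have hb : r.2 = r'.2 := by
    by_contra hne
    have hne' : (r.2 : ℝ × ℝ) - (r'.2 : ℝ × ℝ) ≠ 0 := by
      intro h0
      exact hne (Subtype.ext (sub_eq_zero.1 h0))
    have h1 := hLA1 _ (Gam.sub_mem r.2.2 r'.2.2) hne'
    simp only [Prod.fst_sub, Prod.snd_sub] at h1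
    set e := Real.exp (mu0 * x.1 2) with he
    set e' := Real.exp (-(mu0 * x.1 2)) with he'
    have hee : e * e' = 1 := by
      rw [he, he', ← Real.exp_add]
      simp
    have h2 : |e * ((r.2 : ℝ × ℝ).1 - (r'.2 : ℝ × ℝ).1)| < 1 / 4 := by
      have : e * ((r.2 : ℝ × ℝ).1 - (r'.2 : ℝ × ℝ).1) =
          e * (x.2 0 + r.2.1.1) - e * (x.2 0 + r'.2.1.1) := by ring
      rw [this]
      refine (abs_sub _ _).trans_lt ?_
      linarith
    have h3 : |e' * ((r.2 : ℝ × ℝ).2 - (r'.2 : ℝ × ℝ).2)| < 1 / 4 := by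
      have : e' * ((r.2 : ℝ × ℝ).2 - (r'.2 : ℝ × ℝ).2) =
          e' * (x.2 1 + r.2.1.2) - e' * (x.2 1 + r'.2.1.2) := by ring
      rw [this]
      refine (abs_sub _ _).trans_lt ?_
      linarith
    have h4 : ((r.2 : ℝ × ℝ).1 - (r'.2 : ℝ × ℝ).1) * ((r.2 : ℝ × ℝ).2 - (r'.2 : ℝ × ℝ).2) =
        (e * ((r.2 : ℝ × ℝ).1 - (r'.2 : ℝ × ℝ).1)) *
          (e' * ((r.2 : ℝ × ℝ).2 - (r'.2 : ℝ × ℝ).2)) := by
      linear_combination (-(((r.2 : ℝ × ℝ).1 - (r'.2 : ℝ × ℝ).1) *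
        ((r.2 : ℝ × ℝ).2 - (r'.2 : ℝ × ℝ).2))) * hee
    rw [h4, abs_mul] at h1
    nlinarith [abs_nonneg (e * ((r.2 : ℝ × ℝ).1 - (r'.2 : ℝ × ℝ).1)),
      abs_nonneg (e' * ((r.2 : ℝ × ℝ).2 - (r'.2 : ℝ × ℝ).2))]
  exact Prod.ext hj hb

end Pool.Agent.H29.BCE
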