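import Pool.Agent.H29.BCE.BLD

/-!
MP_696a38_gt, module BLF: the shifted blocks are a locally finite family.
-/

set_option autoImplicit false

namespace Pool.Agent.H29.BCE

open scoped ContDiff Topology
open Pool.Agent.H73 (P V ex ey pb solA solG mu0 Gam lin)
open Pool.Agent.H25.BCE

theorem BLF_thm (hLA2 : LA2Stmt) (hCCP : CCPStmt) : BLFStmt := by
  intro x₀
  refine ⟨Metric.ball x₀ 1, Metric.ball_mem_nhds _ one_pos, ?_⟩
  set R : ℝ := ‖x₀‖ + 1 with hR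
  have hR0 : 0 ≤ R := by positivity
  set M : ℝ := R + Real.exp (|mu0| * R) with hM
  have hfin : ({j : ℤ | |(j : ℝ)| ≤ R + 1} ×ˢ
      {a : ℝ × ℝ | a ∈ Gam ∧ |a.1| ≤ M ∧ |a.2| ≤ M}).Finite := by
    apply Set.Finite.prod _ (hLA2 M)
    apply (Set.finite_Icc (⌈-(R + 1)⌉) (⌊R + 1⌋)).subset
    intro j hj
    obtain ⟨h1, h2⟩ := abs_le.1 (show |(j : ℝ)| ≤ R + 1 from hj)
    exact ⟨Int.ceil_le.2 h1, Int.le_floor.2 h2⟩
  have hpre := hfin.preimage (f := fun r : ℤ × Gam => (r.1, (r.2 : ℝ × ℝ))) (by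
    rintro ⟨a, b⟩ - ⟨a', b'⟩ - hab
    simp only [Prod.mk.injEq] at hab
    exact Prod.ext hab.1 (Subtype.ext hab.2))
  apply hpre.subset
  rintro r ⟨x, hx, hxb⟩
  obtain ⟨a1, a2, a3⟩ := block_bounds x r hx
  have hxn : ‖x‖ ≤ R := by
    have h1 : ‖x - x₀‖ < 1 := by
      rw [← dist_eq_norm]
      exact hxb
    calc ‖x‖ = ‖x₀ + (x - x₀)‖ := by congr 1; abel
      _ ≤ ‖x₀‖ + ‖x - x₀‖ := norm_add_le _ _
      _ ≤ R := by rw [hR]; linarith
  have hx2 : ∀ i, |x.2 i| ≤ R := fun i =>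
    (norm_le_pi_norm x.2 i).trans ((norm_snd_le x).trans hxn)
  have hx1 : ∀ i, |x.1 i| ≤ R := fun i =>
    (norm_le_pi_norm x.1 i).trans ((norm_fst_le x).trans hxn)
  have hmu : |mu0 * x.1 2| ≤ |mu0| * R := by
    rw [abs_mul]
    exact mul_le_mul_of_nonneg_left (hx1 2) (abs_nonneg _)
  obtain ⟨hm1, hm2⟩ := abs_le.1 hmu
  refine ⟨?_, r.2.2, ?_, ?_⟩
  · change |((r.1 : ℤ) : ℝ)| ≤ R + 1
    have h2 : |(r.1 : ℝ) * Per| ≤ R + 1 := by
      have : (r.1 : ℝ) * Per = (x.2 2 + (r.1 : ℝ) * Per) - x.2 2 := by ring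
      rw [this]
      refine (abs_sub _ _).trans ?_
      have := hx2 2
      linarith
    rw [abs_mul, abs_of_pos (by linarith [hCCP.2] : 0 < Per)] at h2
    have := hCCP.2
    nlinarith [abs_nonneg (r.1 : ℝ)]
  · change |(r.2 : ℝ × ℝ).1| ≤ M
    have h2 : |x.2 0 + r.2.1.1| ≤ Real.exp (|mu0| * R) := by
      rw [abs_mul, abs_of_pos (Real.exp_pos _)] at a2
      have h3 : |x.2 0 + r.2.1.1| = Real.exp (-(mu0 * x.1 2)) *
          (Real.exp (mu0 * x.1 2) * |x.2 0 + r.2.1.1|) := by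
        rw [← mul_assoc, ← Real.exp_add]
        simp
      rw [h3]
      have h4 : Real.exp (-(mu0 * x.1 2)) ≤ Real.exp (|mu0| * R) :=
        Real.exp_le_exp.2 (by linarith)
      calc Real.exp (-(mu0 * x.1 2)) * (Real.exp (mu0 * x.1 2) * |x.2 0 + r.2.1.1|)
          ≤ Real.exp (|mu0| * R) * 1 :=
            mul_le_mul h4 (by linarith) (by positivity) (by positivity)
        _ = _ := mul_one _
    have h5 : (r.2 : ℝ × ℝ).1 = (x.2 0 + r.2.1.1) - x.2 0 := by ring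
    rw [h5]
    refine (abs_sub _ _).trans ?_
    have := hx2 0
    rw [hM]
    linarith
  · change |(r.2 : ℝ × ℝ).2| ≤ M
    have h2 : |x.2 1 + r.2.1.2| ≤ Real.exp (|mu0| * R) := by
      rw [abs_mul, abs_of_pos (Real.exp_pos _)] at a3
      have h3 : |x.2 1 + r.2.1.2| = Real.exp (mu0 * x.1 2) *
          (Real.exp (-(mu0 * x.1 2)) * |x.2 1 + r.2.1.2|) := by
        rw [← mul_assoc, ← Real.exp_add]
        simp
      rw [h3]
      have h4 : Real.exp (mu0 * x.1 2) ≤ Real.exp (|mu0| * R) :=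
        Real.exp_le_exp.2 (by linarith)
      calc Real.exp (mu0 * x.1 2) * (Real.exp (-(mu0 * x.1 2)) * |x.2 1 + r.2.1.2|)
          ≤ Real.exp (|mu0| * R) * 1 :=
            mul_le_mul h4 (by linarith) (by positivity) (by positivity)
        _ = _ := mul_one _
    have h5 : (r.2 : ℝ × ℝ).2 = (x.2 1 + r.2.1.2) - x.2 1 := by ring
    rw [h5]
    refine (abs_sub _ _).trans ?_
    have := hx2 1
    rw [hM]
    linarith

end Pool.Agent.H29.BCE
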